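import Mathlib
import Pool.Agent.L7h17.RS.Defs

/-!
Elementary facts for the project RS of helper17: cubes, the quadratic form `qq`, exterior
derivatives of one-forms.
-/

set_option autoImplicit false

open Set Filter Topology MeasureTheory
open scoped ContDiff ComplexConjugate

noncomputable section

namespace Pool.Agent.L7h76.RS

open Pool.Agent.L7h17.RS

variable {n : ℕ}

/-! ### cubes -/

lemma isOpen_Qo (r : ℝ) : IsOpen (Qo n r) := by
  have h : Qo n r = ⋂ j : Fin n, {z : EC n | |(z j).re| < r ∧ |(z j).im| < r} := by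
    ext z; simp [Qo]
  rw [h]
  apply isOpen_iInter_of_finite
  intro j
  apply IsOpen.inter
  · have h1 : Continuous fun z : EC n => |(z j).re| := by fun_prop
    exact isOpen_lt h1 continuous_const
  · have h1 : Continuous fun z : EC n => |(z j).im| := by fun_prop
    exact isOpen_lt h1 continuous_const

lemma isClosed_Qc (r : ℝ) : IsClosed (Qc n r) := by
  have h : Qc n r = ⋂ j : Fin n, {z : EC n | |(z j).re| ≤ r ∧ |(z j).im| ≤ r} := by
    ext z; simp [Qc]
  rw [h]
  apply isClosed_iInter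
  intro j
  apply IsClosed.inter
  · have h1 : Continuous fun z : EC n => |(z j).re| := by fun_prop
    exact isClosed_le h1 continuous_const
  · have h1 : Continuous fun z : EC n => |(z j).im| := by fun_prop
    exact isClosed_le h1 continuous_const

lemma isCompact_Qc (r : ℝ) : IsCompact (Qc n r) := by
  apply Metric.isCompact_of_isClosed_isBounded (isClosed_Qc r)
  rw [Metric.isBounded_iff_subset_closedBall (0 : EC n)]
  refine ⟨2 * |r|, fun z hz => ?_⟩
  rw [mem_closedBall_zero_iff, pi_norm_le_iff_of_nonneg (by positivity)]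
  intro j
  have h1 := Complex.norm_le_abs_re_add_abs_im (z j)
  have h2 := (hz j).1
  have h3 := (hz j).2
  have h4 := le_abs_self r
  linarith

lemma Qo_subset_Qc (r : ℝ) : Qo n r ⊆ Qc n r := fun _ hz j => ⟨(hz j).1.le, (hz j).2.le⟩

lemma Qc_subset_Qo {r r' : ℝ} (h : r < r') : Qc n r ⊆ Qo n r' := fun _ hz j =>
  ⟨lt_of_le_of_lt (hz j).1 h, lt_of_le_of_lt (hz j).2 h⟩

lemma Qc_mono {r r' : ℝ} (h : r ≤ r') : Qc n r ⊆ Qc n r' := fun _ hz j =>
  ⟨(hz j).1.trans h, (hz j).2.trans h⟩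

lemma Qo_mono {r r' : ℝ} (h : r ≤ r') : Qo n r ⊆ Qo n r' := fun _ hz j =>
  ⟨(hz j).1.trans_le h, (hz j).2.trans_le h⟩

/-! ### the quadratic form -/

lemma norm_I_smul (v : EC n) : ‖Complex.I • v‖ = ‖v‖ := by
  rw [norm_smul, Complex.norm_I, one_mul]

lemma qq_smul (τ : F2 n) (c : ℝ) (v : EC n) : qq τ (c • v) = c ^ 2 * qq τ v := by
  unfold qq
  have h1 : (![c • v, Complex.I • c • v] : Fin 2 → EC n) =
      fun i => c • (![v, Complex.I • v] : Fin 2 → EC n) i := by
    funext i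
    fin_cases i
    · rfl
    · show Complex.I • c • v = c • Complex.I • v
      rw [smul_comm]
  rw [h1, τ.map_smul_univ (fun _ => c) ![v, Complex.I • v]]
  simp

lemma qq_zero (τ : F2 n) : qq τ 0 = 0 := by
  have := qq_smul τ 0 0
  simpa using this

lemma qq_le (τ : F2 n) (v : EC n) : |qq τ v| ≤ ‖τ‖ * ‖v‖ ^ 2 := by
  unfold qq
  have h := τ.le_opNorm ![v, Complex.I • v]
  rw [Fin.prod_univ_two] at h
  simp only [Matrix.cons_val_zero, Matrix.cons_val_one, norm_I_smul] at h
  rw [Real.norm_eq_abs] at h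
  rw [_root_.sq]
  exact h

lemma qq_add (τ τ' : F2 n) (v : EC n) : qq (τ + τ') v = qq τ v + qq τ' v := rfl

lemma qq_csmul (c : ℝ) (τ : F2 n) (v : EC n) : qq (c • τ) v = c * qq τ v := rfl

lemma qq_cont : Continuous fun p : F2 n × EC n => qq p.1 p.2 := by
  unfold qq
  have h1 : Continuous fun p : F2 n × (Fin 2 → EC n) => p.1 p.2 := by
    have h2 : Continuous fun p : (ContinuousMultilinearMap ℝ (fun _ : Fin 2 => EC n) ℝ) ×
        (Fin 2 → EC n) => p.1 p.2 := continuous_eval
    exact h2.comp ((ContinuousAlternatingMap.toContinuousMultilinearMapLI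
      (𝕜 := ℝ) (E := EC n) (F := ℝ) (ι := Fin 2)).continuous.prodMap continuous_id)
  have h3 : Continuous fun p : F2 n × EC n => (p.1, (![p.2, Complex.I • p.2] : Fin 2 → EC n)) := by
    refine continuous_fst.prodMk ?_
    refine continuous_pi fun i => ?_
    fin_cases i
    · exact continuous_snd
    · exact continuous_snd.const_smul Complex.I
  exact h1.comp h3

/-- strict positivity on a compact set is uniform -/
lemma pos_bound {S : Set (EC n)} (hS : IsCompact S) {σ : EC n → F2 n} (hσ : ContinuousOn σ S)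
    (hpos : ∀ z ∈ S, ∀ v : EC n, v ≠ 0 → 0 < qq (σ z) v) :
    ∃ m : ℝ, 0 < m ∧ ∀ z ∈ S, ∀ v : EC n, m * ‖v‖ ^ 2 ≤ qq (σ z) v := by
  have hT : IsCompact (S ×ˢ Metric.sphere (0 : EC n) 1) := hS.prod (isCompact_sphere _ _)
  have hf : ContinuousOn (fun p : EC n × EC n => qq (σ p.1) p.2) (S ×ˢ Metric.sphere (0 : EC n) 1) := by
    have h1 : ContinuousOn (fun p : EC n × EC n => (σ p.1, p.2))
        (S ×ˢ Metric.sphere (0 : EC n) 1) :=
      (hσ.comp continuousOn_fst fun p hp => hp.1).prodMk continuousOn_snd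
    exact qq_cont.comp_continuousOn h1
  rcases (S ×ˢ Metric.sphere (0 : EC n) 1).eq_empty_or_nonempty with he | hne
  · refine ⟨1, one_pos, fun z hz v => ?_⟩
    by_cases hv : v = 0
    · subst hv; rw [qq_zero]; simp
    · exfalso
      have : (z, ‖v‖⁻¹ • v) ∈ S ×ˢ Metric.sphere (0 : EC n) 1 := by
        refine ⟨hz, ?_⟩
        rw [mem_sphere_zero_iff_norm, norm_smul, norm_inv, norm_norm,
          inv_mul_cancel₀ (norm_ne_zero_iff.2 hv)]
      rw [he] at this
      exact this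
  · obtain ⟨p, hp, hmin⟩ := hT.exists_isMinOn hne hf
    have hp2 : p.2 ≠ 0 := by
      intro h
      have := hp.2
      rw [h, mem_sphere_zero_iff_norm, norm_zero] at this
      exact zero_ne_one this
    refine ⟨qq (σ p.1) p.2, hpos p.1 hp.1 p.2 hp2, fun z hz v => ?_⟩
    by_cases hv : v = 0
    · subst hv; rw [qq_zero]; simp
    · have hv' : 0 < ‖v‖ := norm_pos_iff.2 hv
      have h1 : (z, ‖v‖⁻¹ • v) ∈ S ×ˢ Metric.sphere (0 : EC n) 1 := by
        refine ⟨hz, ?_⟩
        rw [mem_sphere_zero_iff_norm, norm_smul, norm_inv, norm_norm,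
          inv_mul_cancel₀ hv'.ne']
      have h2 : qq (σ p.1) p.2 ≤ qq (σ z) (‖v‖⁻¹ • v) := hmin h1
      rw [qq_smul] at h2
      have h3 : qq (σ p.1) p.2 * ‖v‖ ^ 2 ≤ (‖v‖⁻¹ ^ 2 * qq (σ z) v) * ‖v‖ ^ 2 :=
        mul_le_mul_of_nonneg_right h2 (by positivity)
      refine h3.trans (le_of_eq ?_)
      field_simp

/-! ### one-forms -/

/-- one-forms -/
abbrev F1 (n : ℕ) : Type := EC n [⋀^Fin 1]→L[ℝ] ℝ

lemma extDeriv_one (η : EC n → F1 n) (z u w : EC n) :
    extDeriv η z ![u, w] = fderiv ℝ η z u ![w] - fderiv ℝ η z w ![u] := by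
  unfold extDeriv
  rw [ContinuousAlternatingMap.alternatizeUncurryFin_apply, Fin.sum_univ_two]
  have h0 : (0 : Fin 2).removeNth ![u, w] = ![w] := by
    funext i
    fin_cases i
    rfl
  have h1 : (1 : Fin 2).removeNth ![u, w] = ![u] := by
    funext i
    fin_cases i
    rfl
  rw [h0, h1]
  simp
  ring

lemma extDeriv_smooth {η : EC n → F1 n} {s : Set (EC n)} (hs : IsOpen s)
    (hη : ContDiffOn ℝ ∞ η s) : ContDiffOn ℝ ∞ (extDeriv η) s := by
  have h1 : ContDiffOn ℝ ∞ (fderiv ℝ η) s := hη.fderiv_of_isOpen hs (by simp)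
  exact (ContinuousAlternatingMap.alternatizeUncurryFinCLM ℝ (EC n) ℝ).contDiff.comp_contDiffOn h1

lemma two_le_infty : minSmoothness ℝ 2 ≤ (∞ : WithTop ℕ∞) := by
  simp only [minSmoothness_of_isRCLikeNormedField]
  exact WithTop.coe_le_coe.2 le_top

/-- the exact perturbation -/
lemma closed_add {σ : EC n → F2 n} {η : EC n → F1 n} {s : Set (EC n)} (hs : IsOpen s)
    (hσ : ContDiffOn ℝ ∞ σ s) (hη : ContDiffOn ℝ ∞ η s) (hc : ∀ z ∈ s, extDeriv σ z = 0) (c : ℝ) :
    ContDiffOn ℝ ∞ (fun z => σ z + c • extDeriv η z) s ∧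
    ∀ z ∈ s, extDeriv (fun z => σ z + c • extDeriv η z) z = 0 := by
  have h1 := extDeriv_smooth hs hη
  have h0 : ContDiffOn ℝ ∞ (fun z => c • extDeriv η z) s := h1.const_smul c
  refine ⟨hσ.add h0, fun z hz => ?_⟩
  have hd1 : DifferentiableAt ℝ σ z :=
    (hσ.contDiffAt (hs.mem_nhds hz)).differentiableAt (by simp)
  have hd2 : DifferentiableAt ℝ (extDeriv η) z :=
    (h1.contDiffAt (hs.mem_nhds hz)).differentiableAt (by simp)
  have h2 : extDeriv (fun z => σ z + (c • extDeriv η) z) z =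
      extDeriv σ z + extDeriv (c • extDeriv η) z := extDeriv_fun_add hd1 (hd2.const_smul c)
  have h3 : extDeriv (fun z => σ z + c • extDeriv η z) z =
      extDeriv (fun z => σ z + (c • extDeriv η) z) z := rfl
  rw [h3, h2, hc z hz, extDeriv_smul,
    extDeriv_extDeriv_apply (hη.contDiffAt (hs.mem_nhds hz)) two_le_infty, smul_zero, add_zero]

end Pool.Agent.L7h76.RS
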