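import Mathlib
import Pool.Agent.L7h17.RS.Defs
import Pool.Agent.L7h76.RS.Bas

/-!
Adding a small exact form (part `S_ADD` of the project RS).
-/

set_option autoImplicit false

open Set Filter Topology MeasureTheory
open scoped ContDiff ComplexConjugate Manifold

noncomputable section

namespace Pool.Agent.L7h76.RS

open Pool.Agent.L7h17.RS

variable {n : ℕ}

/-- the linear map `z ↦ Σ Re z_j dy_j` -/
def Lam (n : ℕ) : EC n →L[ℝ] F1 n :=
  ∑ j : Fin n, (Complex.reCLM.comp (ContinuousLinearMap.proj (R := ℝ) (φ := fun _ : Fin n => ℂ) j)).smulRight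
    (ContinuousAlternatingMap.ofSubsingleton ℝ (EC n) ℝ (0 : Fin 1)
      (Complex.imCLM.comp (ContinuousLinearMap.proj (R := ℝ) (φ := fun _ : Fin n => ℂ) j)))

lemma sum_app {ι : Type} (s : Finset ι) (f : ι → F1 n) (v : Fin 1 → EC n) :
    (∑ i ∈ s, f i) v = ∑ i ∈ s, f i v := by
  classical
  induction s using Finset.induction_on with
  | empty => rfl
  | insert i s hi ih => rw [Finset.sum_insert hi, Finset.sum_insert hi, ← ih]; rfl

lemma Lam_apply (z w : EC n) : Lam n z ![w] = ∑ j, (z j).re * (w j).im := by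
  unfold Lam
  rw [_root_.sum_apply, sum_app]
  rfl

lemma qq_Lam (z v : EC n) : qq (extDeriv (fun z => Lam n z) z) v = ∑ j, Complex.normSq (v j) := by
  unfold qq
  rw [extDeriv_one, ContinuousLinearMap.fderiv, Lam_apply, Lam_apply, ← Finset.sum_sub_distrib]
  apply Finset.sum_congr rfl
  intro j _
  simp [Complex.normSq_apply]

lemma qq_Lam_pos (z v : EC n) (hv : v ≠ 0) : 0 < qq (extDeriv (fun z => Lam n z) z) v := by
  rw [qq_Lam]
  obtain ⟨j, hj⟩ := Function.ne_iff.1 hv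
  exact Finset.sum_pos' (fun j _ => Complex.normSq_nonneg _)
    ⟨j, Finset.mem_univ j, Complex.normSq_pos.2 hj⟩

/-- cutoff functions between cubes -/
lemma exists_cut {r r' : ℝ} (h : r < r') : ∃ ψ : EC n → ℝ, ContDiff ℝ ∞ ψ ∧
    (∀ z ∈ Qc n r, ψ =ᶠ[𝓝 z] fun _ => 1) ∧ (∀ z, z ∉ Qo n r' → ψ =ᶠ[𝓝 z] fun _ => 0) ∧
    ∀ z, 0 ≤ ψ z ∧ ψ z ≤ 1 := by
  obtain ⟨f, h0, h1, h2⟩ := exists_contMDiffMap_zero_one_nhds_of_isClosed (n := ⊤) 𝓘(ℝ, EC n)
    (s := (Qo n r')ᶜ) (t := Qc n r) (isOpen_Qo r').isClosed_compl (isClosed_Qc r)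
    (disjoint_compl_left_iff_subset.2 (Qc_subset_Qo h))
  refine ⟨f, f.contMDiff.contDiff, fun z hz => ?_, fun z hz => ?_, fun z => h2 z⟩
  · exact h1.filter_mono (nhds_le_nhdsSet hz)
  · exact h0.filter_mono (nhds_le_nhdsSet hz)

theorem s_ADD : S_ADD := by
  intro n r₃ r₄ R h3 h34 h4R O σ hO hRO hσ hcl hnn hpos
  obtain ⟨ψ, hψ, hψ1, hψ0, -⟩ := exists_cut (n := n) h34
  set η : EC n → F1 n := fun z => ψ z • Lam n z with hη
  have hηc : ContDiff ℝ ∞ η := hψ.smul (Lam n).contDiff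
  have hin : ∀ z ∈ Qc n r₃, extDeriv η z = extDeriv (fun z => Lam n z) z := by
    intro z hz
    apply Filter.EventuallyEq.extDeriv_eq
    filter_upwards [hψ1 z hz] with w hw
    rw [hη]
    simp only [hw, one_smul]
  have hout : ∀ z, z ∉ Qo n r₄ → extDeriv η z = 0 := by
    intro z hz
    have h1 : η =ᶠ[𝓝 z] fun _ => 0 := by
      filter_upwards [hψ0 z hz] with w hw
      rw [hη]
      simp only [hw, zero_smul]
    have h2 : extDeriv η z = extDeriv (fun _ : EC n => (0 : F1 n)) z := h1.extDeriv_eq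
    rw [h2]
    unfold extDeriv
    have h3 : fderiv ℝ (fun _ : EC n => (0 : F1 n)) z = 0 := by simp
    rw [h3]
    exact (ContinuousAlternatingMap.alternatizeUncurryFinCLM ℝ (EC n) ℝ).map_zero
  set S : Set (EC n) := Qc n r₄ \ Qo n r₃ with hS
  have hSc : IsCompact S := (isCompact_Qc r₄).diff (isOpen_Qo r₃)
  have hSO : S ⊆ O := fun z hz => hRO (Qc_mono h4R.le hz.1)
  obtain ⟨m, hm0, hm⟩ := pos_bound hSc (hσ.continuousOn.mono hSO) hpos
  have hedc : Continuous (extDeriv η) :=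
    (contDiffOn_univ.1 (extDeriv_smooth isOpen_univ hηc.contDiffOn)).continuous
  obtain ⟨M, hM⟩ := (hSc.bddAbove_image (f := fun z => ‖extDeriv η z‖) hedc.norm.continuousOn)
  have hM' : ∀ z ∈ S, ‖extDeriv η z‖ ≤ |M| := fun z hz =>
    (hM ⟨z, hz, rfl⟩).trans (le_abs_self M)
  set δ : ℝ := m / (2 * (|M| + 1)) with hδ
  have hδ0 : 0 < δ := by positivity
  have hδM : δ * |M| ≤ m / 2 := by
    rw [hδ, div_mul_eq_mul_div, div_le_div_iff₀ (by positivity) (by norm_num)]
    nlinarith [abs_nonneg M]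
  obtain ⟨c1, c2⟩ := closed_add hO hσ (hηc.contDiffOn (s := O)) hcl δ
  refine ⟨fun z => σ z + δ • extDeriv η z, c1, c2, fun z hz => ?_, fun z hz v hv => ?_⟩
  · have h1 : z ∉ Qo n r₄ := fun h => hz.2 (Qo_subset_Qc _ h)
    simp only [hout z h1, smul_zero, add_zero]
  · have hq : qq (σ z + δ • extDeriv η z) v = qq (σ z) v + δ * qq (extDeriv η z) v := rfl
    show 0 < qq (σ z + δ • extDeriv η z) v
    rw [hq]
    by_cases hz3 : z ∈ Qo n r₃
    · rw [hin z (Qo_subset_Qc _ hz3)]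
      have h1 := hnn z hz v
      have h2 := qq_Lam_pos z v hv
      have h3 := mul_pos hδ0 h2
      linarith
    · have hzS : z ∈ S := ⟨hz, hz3⟩
      have h1 := hm z hzS v
      have h2 := qq_le (extDeriv η z) v
      have h3 := hM' z hzS
      have hv2 : 0 < ‖v‖ ^ 2 := by
        have := norm_pos_iff.2 hv
        positivity
      have h4 : |δ * qq (extDeriv η z) v| ≤ m / 2 * ‖v‖ ^ 2 := by
        rw [abs_mul, abs_of_pos hδ0]
        calc δ * |qq (extDeriv η z) v| ≤ δ * (|M| * ‖v‖ ^ 2) := by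
              apply mul_le_mul_of_nonneg_left _ hδ0.le
              exact h2.trans (mul_le_mul_of_nonneg_right h3 hv2.le)
          _ = δ * |M| * ‖v‖ ^ 2 := by ring
          _ ≤ m / 2 * ‖v‖ ^ 2 := mul_le_mul_of_nonneg_right hδM hv2.le
      have h5 := neg_le_of_abs_le h4
      have h6 : 0 < m / 2 * ‖v‖ ^ 2 := by positivity
      linarith

end Pool.Agent.L7h76.RS
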