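import Mathlib
import Pool.Agent.L7h17.RS.Defs
import Pool.Agent.L7h17.RS.Calc
import Pool.Agent.L7h17.RS.Mk
import Pool.Agent.L7h76.RS.Bas
import Pool.Agent.L7h76.RS.Add
import Pool.Agent.Y394.SY.Sm

/-!
Averaging in a shell (part `S_AVG` of the project RS).
-/

set_option autoImplicit false

open Set Filter Topology MeasureTheory
open scoped ContDiff ComplexConjugate

noncomputable section

namespace Pool.Agent.L7h76.RS

open Pool.Agent.L7h17.RS

variable {n : ℕ}

/-! ### smoothness of maps into the space of two-forms -/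

/-- the values on pairs of basis vectors -/
def evB (n : ℕ) : F2 n →ₗ[ℝ] (Fin n × Fin n → ℝ × ℝ × ℝ) where
  toFun τ := fun i => (τ ![ex i.1, ex i.2], τ ![ex i.1, ey i.2], τ ![ey i.1, ey i.2])
  map_add' _ _ := rfl
  map_smul' _ _ := rfl

lemma evB_inj : Function.Injective (evB n) := by
  intro τ τ' h
  apply ext2
  · intro j k
    exact congrArg Prod.fst (congrFun h (j, k))
  · intro j k
    exact congrArg (fun p => p.2.1) (congrFun h (j, k))
  · intro j k
    exact congrArg (fun p => p.2.2) (congrFun h (j, k))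

instance : FiniteDimensional ℝ (F2 n) := FiniteDimensional.of_injective (evB n) evB_inj

lemma contDiff_of_ev {F : Type*} [NormedAddCommGroup F] [NormedSpace ℝ F] {f : F → F2 n}
    (h : ∀ v w : EC n, ContDiff ℝ ∞ fun p => f p ![v, w]) : ContDiff ℝ ∞ f := by
  obtain ⟨g, hg⟩ := LinearMap.exists_leftInverse_of_injective (evB n)
    (LinearMap.ker_eq_bot.2 evB_inj)
  have e1 : f = fun p => (LinearMap.toContinuousLinearMap g) (evB n (f p)) := by
    funext p
    have := congrArg (fun T : F2 n →ₗ[ℝ] F2 n => T (f p)) hg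
    exact this.symm
  rw [e1]
  refine (LinearMap.toContinuousLinearMap g).contDiff.comp ?_
  rw [contDiff_pi]
  intro i
  exact (h _ _).prodMk ((h _ _).prodMk (h _ _))

lemma comp_smooth {F : Type*} [NormedAddCommGroup F] [NormedSpace ℝ F] {f : F → F2 n}
    {T : F → (EC n →L[ℝ] EC n)} (hf : ContDiff ℝ ∞ f) (hT : ContDiff ℝ ∞ T) :
    ContDiff ℝ ∞ fun p => (f p).compContinuousLinearMap (T p) := by
  apply contDiff_of_ev
  intro v w
  have e1 : (fun p => ((f p).compContinuousLinearMap (T p)) ![v, w]) =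
      fun p => f p ![T p v, T p w] := by
    funext p
    change f p (T p ∘ ![v, w]) = _
    congr 1
    funext i
    fin_cases i <;> rfl
  have e2 : (fun p => f p ![T p v, T p w]) = fun p => ∑ j, ∑ k,
    (((T p v) j).re * ((T p w) k).re * f p ![ex j, ex k] +
      ((T p v) j).re * ((T p w) k).im * f p ![ex j, ey k] +
      ((T p v) j).im * ((T p w) k).re * f p ![ey j, ex k] +
      ((T p v) j).im * ((T p w) k).im * f p ![ey j, ey k]) := funext fun p => bil_exp _ _ _
  rw [e1, e2]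
  have hre : ∀ (u : EC n) (i : Fin n), ContDiff ℝ ∞ fun p => ((T p u) i).re := by
    intro u i
    have h1 : ContDiff ℝ ∞ fun p => T p u := hT.clm_apply contDiff_const
    exact (Complex.reCLM.comp (ContinuousLinearMap.proj (R := ℝ)
      (φ := fun _ : Fin n => ℂ) i)).contDiff.comp h1
  have him : ∀ (u : EC n) (i : Fin n), ContDiff ℝ ∞ fun p => ((T p u) i).im := by
    intro u i
    have h1 : ContDiff ℝ ∞ fun p => T p u := hT.clm_apply contDiff_const
    exact (Complex.imCLM.comp (ContinuousLinearMap.proj (R := ℝ)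
      (φ := fun _ : Fin n => ℂ) i)).contDiff.comp h1
  have hev : ∀ a b : EC n, ContDiff ℝ ∞ fun p => f p ![a, b] := by
    intro a b
    exact (ContinuousAlternatingMap.apply ℝ (EC n) ℝ ![a, b]).contDiff.comp hf
  refine ContDiff.sum fun i _ => ContDiff.sum fun j _ => ?_
  exact (((((hre v i).mul (hre w j)).mul (hev _ _)).add
    (((hre v i).mul (him w j)).mul (hev _ _))).add
    (((him v i).mul (hre w j)).mul (hev _ _))).add
    (((him v i).mul (him w j)).mul (hev _ _))

/-! ### the deformation `z ↦ z - ψ(z) y` -/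

/-- the deformation -/
def ff (ψ : EC n → ℝ) (y z : EC n) : EC n := z - ψ z • y

/-- its derivative -/
def fD (ψ : EC n → ℝ) (y z : EC n) : EC n →L[ℝ] EC n :=
  ContinuousLinearMap.id ℝ (EC n) - (fderiv ℝ ψ z).smulRight y

lemma ff_fd {ψ : EC n → ℝ} (hψ : ContDiff ℝ ∞ ψ) (y z : EC n) :
    fderiv ℝ (ff ψ y) z = fD ψ y z := by
  have h1 : HasFDerivAt ψ (fderiv ℝ ψ z) z :=
    ((hψ.differentiable (by simp)) z).hasFDerivAt
  have h2 : HasFDerivAt (ff ψ y) (fD ψ y z) z :=
    (hasFDerivAt_id (𝕜 := ℝ) z).sub (h1.smul_const y)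
  exact h2.fderiv

lemma ff_smooth {ψ : EC n → ℝ} (hψ : ContDiff ℝ ∞ ψ) (y : EC n) : ContDiff ℝ ∞ (ff ψ y) :=
  contDiff_id.sub (hψ.smul contDiff_const)

/-- the pulled back form -/
def RR (G : EC n → F2 n) (ψ : EC n → ℝ) (p : EC n × EC n) : F2 n :=
  (G (ff ψ p.2 p.1)).compContinuousLinearMap (fD ψ p.2 p.1)

lemma RR_smooth {G : EC n → F2 n} (hG : ContDiff ℝ ∞ G) {ψ : EC n → ℝ} (hψ : ContDiff ℝ ∞ ψ) :
    ContDiff ℝ ∞ (RR G ψ) := by
  apply comp_smooth
  · exact hG.comp (contDiff_fst.sub ((hψ.comp contDiff_fst).smul contDiff_snd))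
  · have hd : ContDiff ℝ ∞ (fderiv ℝ ψ) := hψ.fderiv_right (by simp)
    exact contDiff_const.sub ((hd.comp contDiff_fst).smulRight contDiff_snd)

lemma comp_id (τ : F2 n) : τ.compContinuousLinearMap (ContinuousLinearMap.id ℝ (EC n)) = τ := by
  ext v
  rfl

/-- the average of the pulled back forms -/
def WW (G : EC n → F2 n) (ψ ρ : EC n → ℝ) (ε : ℝ) (z : EC n) : F2 n :=
  ∫ y in Metric.closedBall (0 : EC n) ε, ρ y • RR G ψ (z, y)

lemma WW_smooth {G : EC n → F2 n} (hG : ContDiff ℝ ∞ G) {ψ ρ : EC n → ℝ}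
    (hψ : ContDiff ℝ ∞ ψ) (hρ : Continuous ρ) (ε : ℝ) : ContDiff ℝ ∞ (WW G ψ ρ ε) :=
  Pool.Agent.Y394.SY.contDiff_setInt volume hρ (isCompact_closedBall _ _) (RR_smooth hG hψ)

/-- a linear map of the derivative of a parameter integral -/
lemma map_int_zero {Y V F H : Type} [NormedAddCommGroup Y] [NormedSpace ℝ Y] [MeasurableSpace Y]
    [BorelSpace Y] [SecondCountableTopology Y] (μ : Measure Y) [IsLocallyFiniteMeasure μ]
    {K : Set Y} {ρ : Y → ℝ} [NormedAddCommGroup V] [NormedSpace ℝ V] [ProperSpace V]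
    [NormedAddCommGroup F] [NormedSpace ℝ F] [CompleteSpace F] [NormedAddCommGroup H]
    [NormedSpace ℝ H] [CompleteSpace H] (A : (V →L[ℝ] F) →L[ℝ] H) (hρ : Continuous ρ)
    (hK : IsCompact K) {R : V × Y → F} (hR : ContDiff ℝ ∞ R) (x₀ : V)
    (h0 : ∀ y ∈ K, A (fderiv ℝ (fun x => R (x, y)) x₀) = 0) :
    A (fderiv ℝ (fun x => ∫ y in K, ρ y • R (x, y) ∂μ) x₀) = 0 := by
  rw [(Pool.Agent.Y394.SY.setInt_hasFDerivAt μ hρ hK hR x₀).fderiv]
  have hc : Continuous fun y : Y =>
      ρ y • (fderiv ℝ R (x₀, y)).comp (ContinuousLinearMap.inl ℝ V Y) := by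
    have h3 := (Pool.Agent.Y394.SY.slice_contDiff hR).continuous
    exact hρ.smul (h3.comp (Continuous.prodMk_right x₀))
  rw [← A.integral_comp_comm (hc.continuousOn.integrableOn_compact hK)]
  apply integral_eq_zero_of_ae
  refine (ae_restrict_iff' hK.isClosed.measurableSet).2
    (Filter.Eventually.of_forall fun y hy => ?_)
  show A (ρ y • (fderiv ℝ R (x₀, y)).comp (ContinuousLinearMap.inl ℝ V Y)) = 0
  rw [map_smul, ← (Pool.Agent.Y394.SY.fderiv_slice hR x₀ y).fderiv, h0 y hy, smul_zero]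

lemma WW_closed {G : EC n → F2 n} (hG : ContDiff ℝ ∞ G) {ψ ρ : EC n → ℝ}
    (hψ : ContDiff ℝ ∞ ψ) (hρ : Continuous ρ) {ε : ℝ} {z : EC n}
    (hz : ∀ y : EC n, ‖y‖ ≤ ε → extDeriv G (ff ψ y z) = 0) : extDeriv (WW G ψ ρ ε) z = 0 := by
  have hR := RR_smooth hG hψ
  refine map_int_zero (volume : Measure (EC n))
    (ContinuousAlternatingMap.alternatizeUncurryFinCLM ℝ (EC n) ℝ (n := 2)) hρ
    (isCompact_closedBall (0 : EC n) ε) hR z fun y hy => ?_
  rw [mem_closedBall_zero_iff] at hy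
  have h6 : (fun z => RR G ψ (z, y)) = fun z => (G (ff ψ y z)).compContinuousLinearMap
      (fderiv ℝ (ff ψ y) z) := by
    funext z
    rw [ff_fd hψ]
    rfl
  have h7 : DifferentiableAt ℝ G (ff ψ y z) := hG.differentiable (by simp) _
  have h8 : extDeriv (fun z => RR G ψ (z, y)) z = 0 := by
    rw [h6, extDeriv_pullback h7 (ff_smooth hψ y).contDiffAt two_le_infty, hz y hy]
    ext v
    rfl
  exact h8

lemma moll_int {ε : ℝ} {ρ : EC n → ℝ} (hρ : Moll ε ρ) {F : Type} [NormedAddCommGroup F]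
    [NormedSpace ℝ F] (g : EC n → F) :
    ∫ y, ρ y • g y = ∫ y in Metric.closedBall (0 : EC n) ε, ρ y • g y := by
  rw [← integral_indicator Metric.isClosed_closedBall.measurableSet]
  congr 1
  funext y
  by_cases hy : y ∈ Metric.closedBall (0 : EC n) ε
  · rw [indicator_of_mem hy]
  · rw [indicator_of_notMem hy, hρ.supp, zero_smul]
    rw [mem_closedBall_zero_iff, not_le] at hy
    exact hy.le

lemma moll_one {ε : ℝ} {ρ : EC n → ℝ} (hρ : Moll ε ρ) :
    ∫ y in Metric.closedBall (0 : EC n) ε, ρ y = 1 := by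
  have := moll_int hρ (fun _ : EC n => (1 : ℝ))
  simp only [smul_eq_mul, mul_one] at this
  rw [← this, hρ.int]

theorem s_AVG : S_AVG := by
  intro n r₁ r₂ r₃ r₄ R h1 h12 h23 h34 h4R σ hσ hcl hnn hpos
  set a : ℝ := (r₁ + r₂) / 2 with ha
  set b : ℝ := (r₄ + R) / 2 with hb
  have har : r₁ < a := by rw [ha]; linarith
  have har2 : a < r₂ := by rw [ha]; linarith
  have hbr : r₄ < b := by rw [hb]; linarith
  have hbR : b < R := by rw [hb]; linarith
  have hAo : IsOpen (Qo n R \ Qc n r₁) := (isOpen_Qo R).sdiff (isClosed_Qc r₁)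
  set T : Set (EC n) := Qc n b \ Qo n a with hT
  have hTc : IsCompact T := (isCompact_Qc b).diff (isOpen_Qo a)
  have hTA : T ⊆ Qo n R \ Qc n r₁ := fun z hz =>
    ⟨Qc_subset_Qo hbR hz.1, fun h => hz.2 (Qc_subset_Qo har h)⟩
  obtain ⟨G, hG, hGσ⟩ := Pool.Agent.Y394.SY.exists_ext hAo hσ hTc hTA
  set U : Set (EC n) := Qo n b \ Qc n a with hU
  have hUo : IsOpen U := (isOpen_Qo b).sdiff (isClosed_Qc a)
  have hUT : U ⊆ T := fun z hz => ⟨Qo_subset_Qc _ hz.1, fun h => hz.2 (Qo_subset_Qc _ h)⟩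
  have hGU : ∀ z ∈ U, extDeriv G z = 0 := by
    intro z hz
    have h2 : G =ᶠ[𝓝 z] σ := by
      filter_upwards [hUo.mem_nhds hz] with w hw
      exact hGσ w (hUT hw)
    rw [h2.extDeriv_eq]
    exact hcl z (hTA (hUT hz))
  obtain ⟨ψ, hψ, hψ1, hψ0, hψ01⟩ := exists_cut (n := n) h34
  have hRR := RR_smooth hG hψ
  -- the shell
  set S : Set (EC n) := Qc n r₄ \ Qo n r₃ with hS
  have hSc : IsCompact S := (isCompact_Qc r₄).diff (isOpen_Qo r₃)
  have hST : S ⊆ T := fun z hz => ⟨Qc_mono hbr.le hz.1,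
    fun h => hz.2 (Qo_mono (by linarith) h)⟩
  obtain ⟨m, hm0, hm⟩ := pos_bound hSc (hσ.continuousOn.mono (hST.trans hTA)) hpos
  have hRR0 : ∀ z, RR G ψ (z, 0) = G z := by
    intro z
    have h2 : ff ψ 0 z = z := by simp [ff]
    have h3 : fD ψ 0 z = ContinuousLinearMap.id ℝ (EC n) := by
      unfold fD
      ext v
      simp
    show (G (ff ψ 0 z)).compContinuousLinearMap (fD ψ 0 z) = G z
    rw [h2, h3, comp_id]
  -- uniform closeness
  obtain ⟨ε₁, hε₁, hclose⟩ : ∃ ε₁ : ℝ, 0 < ε₁ ∧ ∀ z ∈ S, ∀ y : EC n, ‖y‖ < ε₁ →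
      ‖RR G ψ (z, y) - G z‖ ≤ m / 2 := by
    have hcont : Continuous fun p : EC n × EC n => ‖RR G ψ p - G p.1‖ :=
      (hRR.continuous.sub (hG.continuous.comp continuous_fst)).norm
    obtain ⟨u, v, -, hv, hSu, h0v, huv⟩ := generalized_tube_lemma hSc (isCompact_singleton (x := (0 : EC n)))
      (n := {p | ‖RR G ψ p - G p.1‖ < m / 2}) (isOpen_lt hcont continuous_const) (by
        rintro ⟨z, y⟩ ⟨hz, hy⟩
        have hy' : y = 0 := hy
        subst hy'
        show ‖RR G ψ (z, 0) - G z‖ < m / 2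
        rw [hRR0, sub_self, norm_zero]
        positivity)
    obtain ⟨ε₁, hε₁, hball⟩ := Metric.isOpen_iff.1 hv 0 (h0v rfl)
    refine ⟨ε₁, hε₁, fun z hz y hy => ?_⟩
    have h2 : (z, y) ∈ {p : EC n × EC n | ‖RR G ψ p - G p.1‖ < m / 2} :=
      huv ⟨hSu hz, hball (by simpa using hy)⟩
    exact le_of_lt h2
  set ε₀ : ℝ := min ε₁ (min (r₂ - a) (b - r₄)) with hε₀
  refine ⟨ε₀, lt_min hε₁ (lt_min (by linarith) (by linarith)), ?_⟩
  intro ε hε hεε ρ hρ
  have hεε1 : ε < ε₁ := lt_of_lt_of_le hεε (min_le_left _ _)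
  have hεa : ε < r₂ - a :=
    lt_of_lt_of_le hεε ((min_le_right _ _).trans (min_le_left _ _))
  have hεb : ε < b - r₄ :=
    lt_of_lt_of_le hεε ((min_le_right _ _).trans (min_le_right _ _))
  have hρc : Continuous ρ := hρ.smooth.continuous
  -- the deformation stays in `U`
  have hstay : ∀ z ∈ Qo n b \ Qc n r₂, ∀ y : EC n, ‖y‖ ≤ ε → ff ψ y z ∈ U := by
    intro z hz y hy
    have hcoord : ∀ j, |(ff ψ y z j).re - (z j).re| ≤ ε ∧ |(ff ψ y z j).im - (z j).im| ≤ ε := by
      intro j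
      have h2 : ‖y j‖ ≤ ε := (norm_le_pi_norm y j).trans hy
      have h3 : ff ψ y z j - z j = -(ψ z • y j) := by
        show z j - ψ z • y j - z j = _
        ring
      have h4 : ‖ff ψ y z j - z j‖ ≤ ε := by
        rw [h3, norm_neg, norm_smul, Real.norm_eq_abs, abs_of_nonneg (hψ01 z).1]
        calc ψ z * ‖y j‖ ≤ 1 * ‖y j‖ :=
              mul_le_mul_of_nonneg_right (hψ01 z).2 (norm_nonneg _)
          _ ≤ ε := by rw [one_mul]; exact h2
      constructor
      · rw [← Complex.sub_re]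
        exact (Complex.abs_re_le_norm _).trans h4
      · rw [← Complex.sub_im]
        exact (Complex.abs_im_le_norm _).trans h4
    constructor
    · by_cases hz4 : z ∈ Qc n r₄
      · intro j
        have h2 := hz4 j
        have h3 := hcoord j
        rw [abs_le, abs_le] at h2 h3
        obtain ⟨⟨h5, h6⟩, ⟨h7, h8⟩⟩ := h2
        obtain ⟨⟨h9, h10⟩, ⟨h11, h12'⟩⟩ := h3
        exact ⟨abs_lt.2 ⟨by linarith, by linarith⟩, abs_lt.2 ⟨by linarith, by linarith⟩⟩
      · have h2 : ψ z = 0 := (hψ0 z (fun h => hz4 (Qo_subset_Qc _ h))).self_of_nhds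
        have h3 : ff ψ y z = z := by unfold ff; rw [h2, zero_smul, sub_zero]
        rw [h3]
        exact hz.1
    · intro hcon
      apply hz.2
      intro j
      have h2 := hcon j
      have h3 := hcoord j
      rw [abs_le, abs_le] at h2 h3
      obtain ⟨⟨h5, h6⟩, ⟨h7, h8⟩⟩ := h2
      obtain ⟨⟨h9, h10⟩, ⟨h11, h12'⟩⟩ := h3
      exact ⟨abs_le.2 ⟨by linarith, by linarith⟩, abs_le.2 ⟨by linarith, by linarith⟩⟩
  -- the form
  have hWs := WW_smooth hG hψ hρc ε
  have hWc : ∀ z ∈ Qo n b \ Qc n r₂, extDeriv (WW G ψ ρ ε) z = 0 := fun z hz =>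
    WW_closed hG hψ hρc fun y hy => hGU _ (hstay z hz y hy)
  -- outside the shell
  have hWout : ∀ z, z ∉ Qc n r₄ → WW G ψ ρ ε z = G z := by
    intro z hz
    have h2 := hψ0 z (fun h => hz (Qo_subset_Qc _ h))
    have h3 : ∀ y, RR G ψ (z, y) = G z := by
      intro y
      have h4 : ff ψ y z = z := by unfold ff; rw [h2.self_of_nhds, zero_smul, sub_zero]
      have h5 : fD ψ y z = ContinuousLinearMap.id ℝ (EC n) := by
        unfold fD
        rw [h2.fderiv_eq]
        ext v
        simp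
      show (G (ff ψ y z)).compContinuousLinearMap (fD ψ y z) = G z
      rw [h4, h5, comp_id]
    unfold WW
    simp only [h3]
    rw [integral_smul_const, moll_one hρ, one_smul]
  -- inside
  have hWin : ∀ z ∈ Qo n r₃, WW G ψ ρ ε z = ∫ y in Metric.closedBall (0 : EC n) ε,
      ρ y • G (z - y) := by
    intro z hz
    have h2 := hψ1 z (Qo_subset_Qc _ hz)
    have h3 : ∀ y, RR G ψ (z, y) = G (z - y) := by
      intro y
      have h4 : ff ψ y z = z - y := by unfold ff; rw [h2.self_of_nhds, one_smul]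
      have h5 : fD ψ y z = ContinuousLinearMap.id ℝ (EC n) := by
        unfold fD
        rw [h2.fderiv_eq]
        ext v
        simp
      show (G (ff ψ y z)).compContinuousLinearMap (fD ψ y z) = G (z - y)
      rw [h4, h5, comp_id]
    unfold WW
    simp only [h3]
  classical
  set w : EC n → F2 n := fun z => if z ∈ Qc n r₄ then WW G ψ ρ ε z else σ z with hw
  have hV1o : IsOpen (Qo n b \ Qc n r₂) := (isOpen_Qo b).sdiff (isClosed_Qc r₂)
  have hV2o : IsOpen (Qo n R \ Qc n r₄) := (isOpen_Qo R).sdiff (isClosed_Qc r₄)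
  have hwV1 : ∀ z ∈ Qo n b \ Qc n r₂, w z = WW G ψ ρ ε z := by
    intro z hz
    by_cases h4 : z ∈ Qc n r₄
    · rw [hw]; simp only [if_pos h4]
    · rw [hw]
      simp only [if_neg h4]
      rw [hWout z h4]
      refine (hGσ z ⟨Qo_subset_Qc _ hz.1, fun h => hz.2 ?_⟩).symm
      exact Qo_subset_Qc _ (Qo_mono (by linarith) h)
  have hwV2 : ∀ z ∈ Qo n R \ Qc n r₄, w z = σ z := by
    intro z hz
    rw [hw]; simp only [if_neg hz.2]
  have hcov : ∀ z ∈ Qo n R \ Qc n r₂, z ∈ Qo n b \ Qc n r₂ ∨ z ∈ Qo n R \ Qc n r₄ := by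
    intro z hz
    by_cases h4 : z ∈ Qo n b
    · exact Or.inl ⟨h4, hz.2⟩
    · exact Or.inr ⟨hz.1, fun h => h4 (Qc_subset_Qo hbr h)⟩
  have hevV1 : ∀ z ∈ Qo n b \ Qc n r₂, w =ᶠ[𝓝 z] WW G ψ ρ ε := fun z hz => by
    filter_upwards [hV1o.mem_nhds hz] with x hx
    exact hwV1 x hx
  have hevV2 : ∀ z ∈ Qo n R \ Qc n r₄, w =ᶠ[𝓝 z] σ := fun z hz => by
    filter_upwards [hV2o.mem_nhds hz] with x hx
    exact hwV2 x hx
  have hsub24 : Qo n R \ Qc n r₄ ⊆ Qo n R \ Qc n r₁ := fun z hz =>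
    ⟨hz.1, fun h => hz.2 (Qc_mono (by linarith) h)⟩
  have hwav : ∀ z ∈ Qo n r₃ \ Qc n r₂, w z = av ρ σ z := by
    intro z hz
    have hzV : z ∈ Qo n b \ Qc n r₂ := ⟨Qo_mono (by linarith) hz.1, hz.2⟩
    rw [hwV1 z hzV, hWin z hz.1]
    unfold av
    rw [moll_int hρ (fun y => σ (z - y))]
    apply setIntegral_congr_fun Metric.isClosed_closedBall.measurableSet
    intro y hy
    rw [mem_closedBall_zero_iff] at hy
    have h2 := hstay z hzV y hy
    have h3 := (hψ1 z (Qo_subset_Qc _ hz.1)).self_of_nhds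
    have h4 : ff ψ y z = z - y := by unfold ff; rw [h3, one_smul]
    rw [h4] at h2
    show ρ y • G (z - y) = ρ y • σ (z - y)
    rw [hGσ _ (hUT h2)]
  have hwpos : ∀ z ∈ S, ∀ v : EC n, v ≠ 0 → 0 < qq (w z) v := by
    intro z hz v hv
    have h2 : w z = WW G ψ ρ ε z := by rw [hw]; simp only [if_pos hz.1]
    have h3 : WW G ψ ρ ε z - G z = ∫ y in Metric.closedBall (0 : EC n) ε,
        ρ y • (RR G ψ (z, y) - G z) := by
      have h4 : G z = ∫ y in Metric.closedBall (0 : EC n) ε, ρ y • G z := by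
        rw [integral_smul_const, moll_one hρ, one_smul]
      conv_lhs => rw [h4]
      unfold WW
      rw [← integral_sub]
      · congr 1
        funext y
        rw [smul_sub]
      · have : Continuous fun y : EC n => ρ y • RR G ψ (z, y) :=
          hρc.smul (hRR.continuous.comp (Continuous.prodMk_right z))
        exact this.continuousOn.integrableOn_compact (isCompact_closedBall (0 : EC n) ε)
      · have : Continuous fun y : EC n => ρ y • G z := hρc.smul continuous_const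
        exact this.continuousOn.integrableOn_compact (isCompact_closedBall (0 : EC n) ε)
    have h5 : ‖WW G ψ ρ ε z - G z‖ ≤ m / 2 := by
      rw [h3]
      have h6 : IntegrableOn (fun y => ρ y * (m / 2)) (Metric.closedBall (0 : EC n) ε) :=
        (hρc.mul continuous_const).continuousOn.integrableOn_compact
          (isCompact_closedBall (0 : EC n) ε)
      refine (norm_integral_le_of_norm_le h6 ?_).trans (le_of_eq ?_)
      · refine (ae_restrict_iff' Metric.isClosed_closedBall.measurableSet).2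
          (Filter.Eventually.of_forall fun y hy => ?_)
        rw [mem_closedBall_zero_iff] at hy
        rw [norm_smul, Real.norm_eq_abs, abs_of_nonneg (hρ.nonneg y)]
        exact mul_le_mul_of_nonneg_left (hclose z hz y (lt_of_le_of_lt hy hεε1)) (hρ.nonneg y)
      · rw [integral_mul_const, moll_one hρ, one_mul]
    have h7 : w z = σ z + (WW G ψ ρ ε z - G z) := by
      rw [h2, ← hGσ z (hST hz)]
      abel
    rw [h7, qq_add]
    have h8 := hm z hz v
    have h9 := neg_le_of_abs_le (qq_le (WW G ψ ρ ε z - G z) v)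
    have hv2 : 0 < ‖v‖ ^ 2 := by
      have := norm_pos_iff.2 hv
      positivity
    have h10 : ‖WW G ψ ρ ε z - G z‖ * ‖v‖ ^ 2 ≤ m / 2 * ‖v‖ ^ 2 :=
      mul_le_mul_of_nonneg_right h5 hv2.le
    have h11 : 0 < m / 2 * ‖v‖ ^ 2 := by positivity
    linarith
  refine ⟨w, ?_, ?_, hwV2, hwav, ?_, hwpos⟩
  · intro z hz
    apply ContDiffAt.contDiffWithinAt
    rcases hcov z hz with h | h
    · exact hWs.contDiffAt.congr_of_eventuallyEq (hevV1 z h)
    · exact (hσ.contDiffAt (hAo.mem_nhds (hsub24 h))).congr_of_eventuallyEq (hevV2 z h)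
  · intro z hz
    rcases hcov z hz with h | h
    · rw [(hevV1 z h).extDeriv_eq]
      exact hWc z h
    · rw [(hevV2 z h).extDeriv_eq]
      exact hcl z (hsub24 h)
  · intro z hz v
    by_cases h4 : z ∈ Qc n r₄
    · by_cases h3 : z ∈ Qo n r₃
      · have hzV : z ∈ Qo n b \ Qc n r₂ := ⟨Qo_mono (by linarith) h3, hz.2⟩
        rw [hwV1 z hzV, hWin z h3]
        have hint : IntegrableOn (fun y => ρ y • G (z - y)) (Metric.closedBall (0 : EC n) ε) := by
          have : Continuous fun y : EC n => ρ y • G (z - y) :=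
            hρc.smul (hG.continuous.comp (continuous_const.sub continuous_id))
          exact this.continuousOn.integrableOn_compact (isCompact_closedBall (0 : EC n) ε)
        have h5 : qq (∫ y in Metric.closedBall (0 : EC n) ε, ρ y • G (z - y)) v =
            ∫ y in Metric.closedBall (0 : EC n) ε, ρ y * qq (G (z - y)) v := by
          have h6 := (ContinuousAlternatingMap.apply ℝ (EC n) ℝ
            ![v, Complex.I • v]).integral_comp_comm hint
          exact h6.symm
        rw [h5]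
        apply setIntegral_nonneg Metric.isClosed_closedBall.measurableSet
        intro y hy
        rw [mem_closedBall_zero_iff] at hy
        apply mul_nonneg (hρ.nonneg y)
        have h2 := hstay z hzV y hy
        have h3' := (hψ1 z (Qo_subset_Qc _ h3)).self_of_nhds
        have h4' : ff ψ y z = z - y := by unfold ff; rw [h3', one_smul]
        rw [h4'] at h2
        rw [hGσ _ (hUT h2)]
        exact hnn _ (hTA (hUT h2)) v
      · by_cases hv : v = 0
        · subst hv; rw [qq_zero]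
        · exact (hwpos z ⟨h4, h3⟩ v hv).le
    · rw [hwV2 z ⟨hz.1, h4⟩]
      exact hnn z (hsub24 ⟨hz.1, h4⟩) v

end Pool.Agent.L7h76.RS
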