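import Mathlib
import Pool.Agent.L7h17.RS.Defs
import Pool.Agent.L7h17.RS.Calc
import Pool.Agent.L7h17.RS.Mk

/-!
The smoothed (1,1)-part (part `S_REG` of the project RS).
-/

set_option autoImplicit false

open Set Filter Topology MeasureTheory
open scoped ContDiff ComplexConjugate Convolution

noncomputable section

namespace Pool.Agent.L7h76.RS

open Pool.Agent.L7h17.RS

variable {n : ℕ}

/-- convolution with a complex kernel -/
def cw (κ g : EC n → ℂ) (z : EC n) : ℂ := ∫ w, κ (z - w) * g w

/-- multiplication with the factors exchanged -/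
def Lm : ℂ →L[ℝ] ℂ →L[ℝ] ℂ := (ContinuousLinearMap.mul ℝ ℂ).flip

lemma cw_eq (κ g : EC n → ℂ) : cw κ g = (g ⋆[Lm, volume] κ) := rfl

/-- smooth kernels with compact support -/
structure Ker (κ : EC n → ℂ) : Prop where
  smooth : ContDiff ℝ ∞ κ
  supp : HasCompactSupport κ

lemma Ker.fd {κ : EC n → ℂ} (h : Ker κ) (u : EC n) : Ker fun y => fderiv ℝ κ y u := by
  refine ⟨?_, h.supp.fderiv_apply ℝ u⟩
  exact (h.smooth.fderiv_right (by simp)).clm_apply contDiff_const

lemma Ker.dz {κ : EC n → ℂ} (h : Ker κ) (l : Fin n) : Ker (dz l κ) := by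
  refine ⟨?_, ?_⟩
  · exact ((h.fd (ex l)).smooth.sub (contDiff_const.mul (h.fd (ey l)).smooth)).div_const 2
  · have h1 : HasCompactSupport fun y => fderiv ℝ κ y (ex l) - Complex.I * fderiv ℝ κ y (ey l) :=
      (h.fd (ex l)).supp.sub (h.fd (ey l)).supp.mul_left
    exact h1.comp_left (g := fun x : ℂ => x / 2) (by simp)

lemma Ker.db {κ : EC n → ℂ} (h : Ker κ) (l : Fin n) : Ker (db l κ) := by
  refine ⟨?_, ?_⟩
  · exact ((h.fd (ex l)).smooth.add (contDiff_const.mul (h.fd (ey l)).smooth)).div_const 2
  · have h1 : HasCompactSupport fun y => fderiv ℝ κ y (ex l) + Complex.I * fderiv ℝ κ y (ey l) :=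
      (h.fd (ex l)).supp.add (h.fd (ey l)).supp.mul_left
    exact h1.comp_left (g := fun x : ℂ => x / 2) (by simp)

lemma Ker.int {κ : EC n → ℂ} (h : Ker κ) {g : EC n → ℂ} (hg : Integrable g) (z : EC n) :
    Integrable fun w => κ (z - w) * g w := by
  obtain ⟨C, hC⟩ := h.smooth.continuous.bounded_above_of_compact_support h.supp
  exact hg.bdd_mul (c := C) (h.smooth.continuous.comp (continuous_const.sub continuous_id)).aestronglyMeasurable
    (Filter.Eventually.of_forall fun w => hC (z - w))

lemma cw_smooth {κ : EC n → ℂ} (h : Ker κ) {g : EC n → ℂ} (hg : Integrable g) :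
    ContDiff ℝ ∞ (cw κ g) := by
  rw [cw_eq]
  exact h.supp.contDiff_convolution_right Lm hg.locallyIntegrable h.smooth

lemma cw_fd {κ : EC n → ℂ} (h : Ker κ) {g : EC n → ℂ} (hg : Integrable g) (z u : EC n) :
    fderiv ℝ (cw κ g) z u = cw (fun y => fderiv ℝ κ y u) g z := by
  have h1 : ContDiff ℝ 1 κ := h.smooth.of_le (by simp)
  have h2 := h.supp.hasFDerivAt_convolution_right (μ := (volume : Measure (EC n))) Lm
    hg.locallyIntegrable h1 z
  rw [cw_eq, h2.fderiv, convolution_precompR_apply Lm hg.locallyIntegrable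
    (h.supp.fderiv (𝕜 := ℝ)) (h1.continuous_fderiv one_ne_zero)]
  rfl

lemma cw_dz {κ : EC n → ℂ} (h : Ker κ) {g : EC n → ℂ} (hg : Integrable g) (l : Fin n) :
    dz l (cw κ g) = cw (dz l κ) g := by
  funext z
  unfold dz
  rw [cw_fd h hg, cw_fd h hg]
  unfold cw
  rw [← integral_const_mul, ← integral_sub ((h.fd (ex l)).int hg z)
    (((h.fd (ey l)).int hg z).const_mul _), ← integral_div]
  congr 1
  funext w
  ring

lemma cw_db {κ : EC n → ℂ} (h : Ker κ) {g : EC n → ℂ} (hg : Integrable g) (l : Fin n) :
    db l (cw κ g) = cw (db l κ) g := by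
  funext z
  unfold db
  rw [cw_fd h hg, cw_fd h hg]
  unfold cw
  rw [← integral_const_mul, ← integral_add ((h.fd (ex l)).int hg z)
    (((h.fd (ey l)).int hg z).const_mul _), ← integral_div]
  congr 1
  funext w
  ring

/-! ### the reflected kernel -/

lemma fd_refl {κ : EC n → ℂ} (h : Ker κ) (z w u : EC n) :
    fderiv ℝ (fun w => κ (z - w)) w u = - fderiv ℝ κ (z - w) u := by
  have h1 : HasFDerivAt κ (fderiv ℝ κ (z - w)) (z - w) :=
    (h.smooth.differentiable (by simp) _).hasFDerivAt
  have h2 : HasFDerivAt (fun w : EC n => z - w) (- ContinuousLinearMap.id ℝ (EC n)) w := by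
    simpa using (hasFDerivAt_id (𝕜 := ℝ) w).const_sub z
  have h3 := h1.comp w h2
  have h4 : fderiv ℝ (fun w => κ (z - w)) w = _ := h3.fderiv
  rw [h4]
  simp

lemma dz_refl {κ : EC n → ℂ} (h : Ker κ) (z : EC n) (l : Fin n) :
    dz l (fun w => κ (z - w)) = fun w => - dz l κ (z - w) := by
  funext w
  unfold dz
  rw [fd_refl h, fd_refl h]
  ring

lemma db_refl {κ : EC n → ℂ} (h : Ker κ) (z : EC n) (l : Fin n) :
    db l (fun w => κ (z - w)) = fun w => - db l κ (z - w) := by
  funext w
  unfold db
  rw [fd_refl h, fd_refl h]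
  ring

lemma db_dz_refl {κ : EC n → ℂ} (h : Ker κ) (z : EC n) (l m : Fin n) (w : EC n) :
    db m (dz l (fun w => κ (z - w))) w = db m (dz l κ) (z - w) := by
  rw [dz_refl h, db_neg, db_refl (h.dz l)]
  ring

lemma refl_test {κ : EC n → ℂ} (h : Ker κ) {ε R : ℝ} (_hε : 0 < ε) (hs : ∀ y, ε ≤ ‖y‖ → κ y = 0)
    {z : EC n} (hz : z ∈ Qo n (R - ε)) : IsTest (Qo n R) fun w => κ (z - w) := by
  have hsub : Metric.closedBall z ε ⊆ Qo n R := by
    intro w hw j
    have h1 : ‖w - z‖ ≤ ε := by rwa [Metric.mem_closedBall, dist_eq_norm] at hw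
    have h2 : ‖(w - z) j‖ ≤ ε := (norm_le_pi_norm (w - z) j).trans h1
    have h3 := (Complex.abs_re_le_norm ((w - z) j)).trans h2
    have h4 := (Complex.abs_im_le_norm ((w - z) j)).trans h2
    rw [Pi.sub_apply, Complex.sub_re] at h3
    rw [Pi.sub_apply, Complex.sub_im] at h4
    obtain ⟨h5, h6⟩ := hz j
    rw [abs_le] at h3 h4
    rw [abs_lt] at h5 h6
    constructor
    · rw [abs_lt]; constructor <;> linarith
    · rw [abs_lt]; constructor <;> linarith
  have hcl : tsupport (fun w => κ (z - w)) ⊆ Metric.closedBall z ε := by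
    apply closure_minimal _ Metric.isClosed_closedBall
    intro w hw
    by_contra hcon
    apply hw
    apply hs
    rw [Metric.mem_closedBall, not_le, dist_comm, dist_eq_norm] at hcon
    exact hcon.le
  refine ⟨h.smooth.comp (contDiff_const.sub contDiff_id), ?_, hcl.trans hsub⟩
  exact (isCompact_closedBall z ε).of_isClosed_subset (isClosed_tsupport _) hcl

theorem s_REG : S_REG := by
  intro _ n R ε K σ O hε hεR hgood hK hKR hRO hint hid ρ hρ
  set κ : EC n → ℂ := fun y => (ρ y : ℂ) with hκ
  have hsupp : ∀ y, ε ≤ ‖y‖ → κ y = 0 := fun y hy => by rw [hκ]; simp [hρ.supp y hy]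
  have hker : Ker κ := by
    refine ⟨Complex.ofRealCLM.contDiff.comp hρ.smooth, ?_⟩
    apply HasCompactSupport.intro (isCompact_closedBall (0 : EC n) ε)
    intro y hy
    apply hsupp
    rw [mem_closedBall_zero_iff, not_le] at hy
    exact hy.le
  have hcv : ∀ g : EC n → ℂ, cv ρ g = cw κ g := fun g => rfl
  simp only [hcv]
  refine ⟨fun j k => cw_smooth hker (hint j k), fun l j k m z hz => ?_, fun z v => ?_⟩
  · -- the identity
    have h1 : ∀ (l m j k : Fin n), db m (dz l (cw κ ((Qc n R).indicator (HH σ j k)))) z =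
        ∫ w, db m (dz l κ) (z - w) * (Qc n R).indicator (HH σ j k) w := by
      intro l m j k
      rw [cw_dz hker (hint j k), cw_db (hker.dz l) (hint j k)]
      rfl
    have h2 : ∀ (l m j k : Fin n), Integrable fun w =>
        db m (dz l κ) (z - w) * (Qc n R).indicator (HH σ j k) w := fun l m j k =>
      ((hker.dz l).db m).int (hint j k) z
    have h3 := hid (fun w => κ (z - w)) (refl_test hker hε hsupp hz) l j k m
    have h4 : ∀ (l j k m : Fin n), (∫ w in Qc n R, (HH σ j k w * db m (dz l (fun w => κ (z - w))) w -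
        HH σ l k w * db m (dz j (fun w => κ (z - w))) w)) =
        db m (dz l (cw κ ((Qc n R).indicator (HH σ j k)))) z -
        db m (dz j (cw κ ((Qc n R).indicator (HH σ l k)))) z := by
      intro l j k m
      rw [h1, h1, ← integral_sub (h2 l m j k) (h2 j m l k),
        ← integral_indicator (isClosed_Qc n R).measurableSet]
      congr 1
      funext w
      by_cases hw : w ∈ Qc n R
      · simp only [indicator_of_mem hw, db_dz_refl hker]
        ring
      · simp only [indicator_of_notMem hw, mul_zero, sub_zero]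
    rw [h4 l j k m, h4 l j m k] at h3
    exact h3
  · -- positivity
    have hI : ∀ j k, Integrable fun w => κ (z - w) * (Qc n R).indicator (HH σ j k) w :=
      fun j k => hker.int (hint j k) z
    have h1 : (-2 * Complex.I * ∑ j, ∑ k, cw κ ((Qc n R).indicator (HH σ j k)) z * v j *
        conj (v k)) = ∫ w, κ (z - w) * (-2 * Complex.I * ∑ j, ∑ k,
          (Qc n R).indicator (HH σ j k) w * v j * conj (v k)) := by
      have h2 : ∀ w, κ (z - w) * (-2 * Complex.I * ∑ j, ∑ k,
          (Qc n R).indicator (HH σ j k) w * v j * conj (v k)) = -2 * Complex.I * ∑ j, ∑ k,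
          (κ (z - w) * (Qc n R).indicator (HH σ j k) w) * v j * conj (v k) := by
        intro w
        simp only [Finset.mul_sum]
        apply Finset.sum_congr rfl
        intro j _
        apply Finset.sum_congr rfl
        intro k _
        ring
      simp only [h2]
      rw [integral_const_mul, integral_finsetSum _ fun j _ => integrable_finsetSum _ fun k _ =>
        ((hI j k).mul_const (v j)).mul_const (conj (v k))]
      congr 1
      apply Finset.sum_congr rfl
      intro j _
      rw [integral_finsetSum _ fun k _ => ((hI j k).mul_const (v j)).mul_const (conj (v k))]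
      apply Finset.sum_congr rfl
      intro k _
      rw [integral_mul_const, integral_mul_const]
      rfl
    have hI2 : Integrable fun w => κ (z - w) * (-2 * Complex.I * ∑ j, ∑ k,
        (Qc n R).indicator (HH σ j k) w * v j * conj (v k)) := by
      apply hker.int
      apply Integrable.const_mul
      exact integrable_finsetSum _ fun j _ => integrable_finsetSum _ fun k _ =>
        ((hint j k).mul_const (v j)).mul_const (conj (v k))
    rw [h1]
    have h3 : (∫ w, κ (z - w) * (-2 * Complex.I * ∑ j, ∑ k,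
          (Qc n R).indicator (HH σ j k) w * v j * conj (v k))).re =
        ∫ w, (κ (z - w) * (-2 * Complex.I * ∑ j, ∑ k,
          (Qc n R).indicator (HH σ j k) w * v j * conj (v k))).re :=
      (Complex.reCLM.integral_comp_comm hI2).symm
    rw [h3]
    apply integral_nonneg_of_ae
    have hKae : ∀ᵐ w : EC n, w ∉ K := by
      rw [ae_iff]
      simpa using hK
    filter_upwards [hKae] with w hw
    show 0 ≤ (κ (z - w) * (-2 * Complex.I * ∑ j, ∑ k,
          (Qc n R).indicator (HH σ j k) w * v j * conj (v k))).re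
    rw [hκ, Complex.re_ofReal_mul]
    apply mul_nonneg (hρ.nonneg _)
    by_cases hwQ : w ∈ Qc n R
    · simp only [indicator_of_mem hwQ]
      rw [← qq_formula σ w v]
      exact hgood.nonneg w ⟨hRO hwQ, hw⟩ v
    · simp only [indicator_of_notMem hwQ, zero_mul, Finset.sum_const_zero, mul_zero,
        Complex.zero_re, le_refl]

end Pool.Agent.L7h76.RS
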